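import Mathlib
import Pool.Agent.LR2.Cons

/-!
Lonely runner with speeds at most `2 n`: the doubling constraint at a modulus `M` slightly larger
than `2 n + 2`. If `X` and `M - X` are not speeds then, apart from small exceptions, the residues
`2 X` and `- 2 X` modulo `M` are speeds. Times `a / M + (3 (n + 1) - M) / ((n + 1) M ^ 2)` with
`a X = 1` modulo `M`.
-/

namespace Pool.Agent.LR3

open Finset Pool.Agent.LR2

/-- The doubling constraint, one half. -/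
theorem bohr {n : ℕ} {V : Finset ℕ} (hV : ∀ x ∈ V, 1 ≤ x ∧ x ≤ 2 * n)
    (hno : ∀ t : ℝ, ∃ x ∈ V, ∃ k : ℤ, |t * (x : ℝ) - (k : ℝ)| < (1 : ℝ) / ((n : ℝ) + 1))
    {M K X : ℕ} (h1 : 2 * n + 2 < M) (h2 : M < 3 * (n + 1))
    (hK : M * (M - 2 * (n + 1)) ≤ K * (3 * (n + 1) - M))
    (hX : Nat.Coprime X M) (hX0 : 0 < X) (hXM : X < M) (hx : X ∉ V) (hy : M - X ∉ V)
    (hz : K ≤ 2 * X % M) : M - 2 * X % M ∈ V := by
  obtain ⟨a, m, ham⟩ := CONS_bez hX
  obtain ⟨N, hN⟩ : ∃ N : ℤ, N = (n : ℤ) + 1 := ⟨_, rfl⟩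
  obtain ⟨s, hs⟩ : ∃ s : ℤ, s = (M : ℤ) := ⟨_, rfl⟩
  rw [← hs] at ham
  have hN0 : 0 < N := by omega
  have hsN : 2 * N < s := by omega
  have hs3 : s < 3 * N := by omega
  have hs0 : 0 < s := by omega
  have hK' : s * (s - 2 * N) ≤ K * (3 * N - s) := by
    have h3 : ((M * (M - 2 * (n + 1)) : ℕ) : ℤ) ≤ ((K * (3 * (n + 1) - M) : ℕ) : ℤ) := by
      exact_mod_cast hK
    rw [Nat.cast_mul, Nat.cast_mul, Nat.cast_sub (by omega), Nat.cast_sub (by omega)] at h3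
    push_cast at h3
    rw [hs, hN]
    linarith
  obtain ⟨z, hzV, k, hk⟩ := CONS_rat hno (a * s * N + (3 * N - s)) (N * s ^ 2) (s ^ 2)
    (by positivity) (by rw [hN]; exact le_of_eq (by ring))
  obtain ⟨hz1, hz2⟩ := hV z hzV
  obtain ⟨ρ, hρ⟩ : ∃ ρ : ℤ, a * z - k * s = ρ := ⟨_, rfl⟩
  have hval : (a * s * N + (3 * N - s)) * z - k * (N * s ^ 2) =
      s * N * ρ + (3 * N - s) * z := by rw [← hρ]; ring
  rw [hval, abs_lt] at hk
  obtain ⟨hk1, hk2⟩ := hk
  have hd : s ∣ z - ρ * X := CONS_inv ham hρ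
  have hz0 : (0 : ℤ) < z := by omega
  have hzs : (z : ℤ) < s := by omega
  have hd0 : 0 < 3 * N - s := by omega
  have hsNp : 0 < s * N := by positivity
  -- `ρ ≤ 2`
  have hρ1 : ρ ≤ 2 := by
    by_contra hc
    push Not at hc
    have h4 : s * N * 3 ≤ s * N * ρ := by gcongr; omega
    have h5 : 0 < (3 * N - s) * z := by positivity
    nlinarith
  have hρ2 : -2 ≤ ρ := by
    by_contra hc
    push Not at hc
    have h4 : s * N * ρ ≤ s * N * (-3) := by gcongr; omega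
    have h5 : (3 * N - s) * z < (3 * N - s) * s := by gcongr
    nlinarith
  -- the residue of `2 X`
  obtain ⟨r, hr⟩ : ∃ r : ℕ, r = 2 * X % M := ⟨_, rfl⟩
  rw [← hr] at hz ⊢
  have hrM : r < M := by rw [hr]; exact Nat.mod_lt _ (by omega)
  have hrd : s ∣ 2 * X - r := by
    rw [hs, hr]
    have h6 := Nat.mod_add_div (2 * X) M
    refine ⟨((2 * X / M : ℕ) : ℤ), ?_⟩
    have h7 : ((2 * X % M : ℕ) : ℤ) + (M : ℤ) * ((2 * X / M : ℕ) : ℤ) = 2 * X := by
      exact_mod_cast h6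
    linarith
  have h3 : ρ = 2 ∨ ρ = 1 ∨ ρ = 0 ∨ ρ = -1 ∨ ρ = -2 := by omega
  rcases h3 with rfl | rfl | rfl | rfl | rfl
  · -- `z` is the residue of `2 X` and is small
    exfalso
    have hd2 : s ∣ (z : ℤ) - r := by
      have h8 : (z : ℤ) - r = (z - 2 * X) + (2 * X - r) := by ring
      rw [h8]
      exact dvd_add hd hrd
    have h9 := CONS_mul hs0 hd2 (by omega) (by omega)
    have h10 : (K : ℤ) ≤ z := by omega
    have h11 : (K : ℤ) * (3 * N - s) ≤ z * (3 * N - s) := by gcongr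
    nlinarith
  · exfalso
    have h9 := CONS_mul hs0 hd (by omega) (by omega)
    have h10 : z = X := by omega
    exact hx (h10 ▸ hzV)
  · exfalso
    rw [zero_mul, sub_zero] at hd
    have h9 := Int.le_of_dvd hz0 hd
    omega
  · exfalso
    have hd2 : s ∣ (z : ℤ) - (s - X) := by
      have h8 : (z : ℤ) - (s - X) = (z - -1 * X) - s := by ring
      rw [h8]
      exact dvd_sub_self_right.2 hd
    have h9 := CONS_mul hs0 hd2 (by omega) (by omega)
    have h10 : z = M - X := by omega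
    exact hy (h10 ▸ hzV)
  · have hd2 : s ∣ (z : ℤ) - (s - r) := by
      have h8 : (z : ℤ) - (s - r) = (z - -2 * X) - (2 * X - r) - s := by ring
      rw [h8]
      exact dvd_sub_self_right.2 (dvd_sub hd hrd)
    have h9 := CONS_mul hs0 hd2 (by omega) (by omega)
    have h10 : z = M - r := by omega
    exact h10 ▸ hzV

/-- The doubling constraint. -/
theorem dblRefl {n : ℕ} {V : Finset ℕ} (hV : ∀ x ∈ V, 1 ≤ x ∧ x ≤ 2 * n)
    (hno : ∀ t : ℝ, ∃ x ∈ V, ∃ k : ℤ, |t * (x : ℝ) - (k : ℝ)| < (1 : ℝ) / ((n : ℝ) + 1))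
    {M K X : ℕ} (h1 : 2 * n + 2 < M) (h2 : M < 3 * (n + 1))
    (hK : M * (M - 2 * (n + 1)) ≤ K * (3 * (n + 1) - M))
    (hX : Nat.Coprime X M) (hX0 : 0 < X) (hXM : X < M) (hx : X ∉ V) (hy : M - X ∉ V)
    (hz : K ≤ 2 * X % M) (hz' : K ≤ M - 2 * X % M) (hz0 : 0 < 2 * X % M) :
    2 * X % M ∈ V ∧ M - 2 * X % M ∈ V := by
  refine ⟨?_, bohr hV hno h1 h2 hK hX hX0 hXM hx hy hz⟩
  have hrM : 2 * X % M < M := Nat.mod_lt _ (by omega)
  have hXM' : M - (M - X) = X := by omega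
  have hmod : 2 * (M - X) % M = M - 2 * X % M := by
    have h6 := Nat.mod_add_div (2 * X) M
    obtain ⟨r, hr⟩ : ∃ r : ℕ, r = 2 * X % M := ⟨_, rfl⟩
    obtain ⟨q, hq⟩ : ∃ q : ℕ, q = 2 * X / M := ⟨_, rfl⟩
    rw [← hr, ← hq] at h6
    rw [← hr] at hz0 hrM ⊢
    have hq1 : q < 2 := by
      by_contra hc
      push Not at hc
      have : M * 2 ≤ M * q := by gcongr
      omega
    interval_cases q
    · have h7 : 2 * (M - X) = (M - r) + M := by omega
      rw [h7, Nat.add_mod_right, Nat.mod_eq_of_lt (by omega)]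
    · have h7 : 2 * (M - X) = M - r := by omega
      rw [h7, Nat.mod_eq_of_lt (by omega)]
  have h := bohr hV hno h1 h2 hK (X := M - X) ((Nat.coprime_self_sub_left hXM.le).2 hX)
    (by omega) (by omega) hy (by rwa [hXM']) (by rwa [hmod])
  rw [hmod] at h
  have h8 : M - (M - 2 * X % M) = 2 * X % M := by omega
  rwa [h8] at h

end Pool.Agent.LR3
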