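import Mathlib
import Pool.Agent.LR3.Bohr

/-!
Lonely runner with speeds at most `2 n`: counting with the doubling constraint. `T2` is the set of
the units `X` modulo `M` such that `X` and `M - X` are not speeds, `T0` the set of those such that
both are speeds. Doubling maps `T2` to `T0` (up to `2 K` exceptions) and is injective, and
`card T0 ≤ card T2 + 2 n - totient M`. Hence few elements of `T0` are not doubles of elements
of `T2`.
-/

namespace Pool.Agent.LR3

open Finset Pool.Agent.LR2

lemma inj_dbl {M : ℕ} (hodd : Odd M) {X Y : ℕ} (hX : X < M) (hY : Y < M)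
    (h : 2 * X % M = 2 * Y % M) : X = Y := by
  have h1 : 2 * X ≡ 2 * Y [MOD M] := h
  have h2 : X ≡ Y [MOD M] := by
    refine Nat.ModEq.cancel_left_of_coprime ?_ h1
    exact (Nat.coprime_two_right.2 hodd)
  exact Nat.ModEq.eq_of_lt_of_lt h2 hX hY

theorem near {n : ℕ} {V : Finset ℕ} (hV : ∀ x ∈ V, 1 ≤ x ∧ x ≤ 2 * n) (hcard : V.card = n)
    (hno : ∀ t : ℝ, ∃ x ∈ V, ∃ k : ℤ, |t * (x : ℝ) - (k : ℝ)| < (1 : ℝ) / ((n : ℝ) + 1))
    {M K : ℕ} (h1 : 2 * n + 2 < M) (h2 : M < 3 * (n + 1))
    (hK : M * (M - 2 * (n + 1)) ≤ K * (3 * (n + 1) - M)) (hodd : Odd M) (S : Finset ℕ)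
    (hS : ∀ x ∈ S, 2 * x < M ∧ Nat.Coprime x M ∧ M - x ∈ V ∧ M - 2 * x ∈ V ∧ 2 * x ∈ V) :
    S.card + M.totient ≤ 2 * n + 2 * K := by
  classical
  obtain ⟨G, hG⟩ : ∃ G : Finset ℕ, G = (range M).filter (fun X => Nat.Coprime M X) := ⟨_, rfl⟩
  have hmem : ∀ X, X ∈ G ↔ X < M ∧ Nat.Coprime X M := by
    intro X
    rw [hG, mem_filter, mem_range, Nat.coprime_comm]
  have hGpos : ∀ X ∈ G, 0 < X := by
    intro X hX
    rcases Nat.eq_zero_or_pos X with h | h
    · rw [h] at hX
      have h3 := ((hmem 0).1 hX).2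
      rw [Nat.coprime_zero_left] at h3
      omega
    · exact h
  have hGcard : G.card = M.totient := by rw [hG]; rfl
  set T2 := G.filter (fun X => X ∉ V ∧ M - X ∉ V) with hT2
  set T0 := G.filter (fun X => X ∈ V ∧ M - X ∈ V) with hT0
  set A := G.filter (fun X => X ∈ V) with hA
  set B := G.filter (fun X => M - X ∈ V) with hB
  set E := G.filter (fun X => X < K ∨ M - X < K) with hE
  -- the identity
  have hid : G.card + T0.card = T2.card + A.card + B.card := by
    rw [hT0, hT2, hA, hB, Finset.card_filter, Finset.card_filter, Finset.card_filter,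
      Finset.card_filter, Finset.card_eq_sum_ones, ← Finset.sum_add_distrib,
      ← Finset.sum_add_distrib, ← Finset.sum_add_distrib]
    refine Finset.sum_congr rfl fun X _ => ?_
    by_cases ha : X ∈ V <;> by_cases hb : M - X ∈ V <;> simp [ha, hb]
  have hAc : A.card ≤ n := by
    rw [← hcard]
    exact Finset.card_le_card fun X hX => (mem_filter.1 hX).2
  have hBc : B.card ≤ n := by
    rw [← hcard]
    refine Finset.card_le_card_of_injOn (fun X => M - X) ?_ ?_
    · intro X hX
      exact (mem_filter.1 (Finset.mem_coe.1 hX)).2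
    · intro X hX Y hY hXY
      have h3 := ((hmem X).1 (mem_filter.1 (Finset.mem_coe.1 hX)).1).1
      have h4 := ((hmem Y).1 (mem_filter.1 (Finset.mem_coe.1 hY)).1).1
      simp only at hXY
      omega
  have hEc : E.card ≤ 2 * K := by
    have hsub : E ⊆ range K ∪ (range K).image (fun i => M - i) := by
      intro X hX
      obtain ⟨h3, h4⟩ := mem_filter.1 hX
      have h5 := ((hmem X).1 h3).1
      rw [mem_union, mem_range, mem_image]
      rcases h4 with h4 | h4
      · exact Or.inl h4
      · exact Or.inr ⟨M - X, mem_range.2 h4, by omega⟩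
    calc E.card ≤ (range K ∪ (range K).image (fun i => M - i)).card := Finset.card_le_card hsub
      _ ≤ (range K).card + ((range K).image (fun i => M - i)).card := Finset.card_union_le _ _
      _ ≤ K + K := by
          gcongr
          · rw [card_range]
          · exact Finset.card_image_le.trans (by rw [card_range])
      _ = 2 * K := by ring
  -- doubling
  set F := T2.image (fun X => 2 * X % M) with hF
  have hFc : F.card = T2.card := by
    rw [hF]
    refine Finset.card_image_of_injOn ?_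
    intro X hX Y hY hXY
    exact inj_dbl hodd ((hmem X).1 (mem_filter.1 (Finset.mem_coe.1 hX)).1).1
      ((hmem Y).1 (mem_filter.1 (Finset.mem_coe.1 hY)).1).1 hXY
  have hFsub : F ⊆ (T0 ∩ F) ∪ E := by
    intro Y hY
    obtain ⟨X, hX, hXY⟩ := mem_image.1 hY
    obtain ⟨hXG, hX1, hX2⟩ := mem_filter.1 hX
    obtain ⟨hXM, hXc⟩ := (hmem X).1 hXG
    have hX0 := hGpos X hXG
    have h2X : Nat.Coprime (2 * X) M :=
      Nat.Coprime.mul_left (Nat.coprime_two_left.2 hodd) hXc
    have hYG : Y ∈ G := by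
      rw [hmem, ← hXY]
      refine ⟨Nat.mod_lt _ (by omega), ?_⟩
      rw [Nat.coprime_comm, Nat.Coprime, Nat.gcd_comm, ← Nat.gcd_rec, Nat.gcd_comm]
      exact h2X
    have hY0 := hGpos Y hYG
    rw [mem_union, mem_inter]
    by_cases hYE : Y < K ∨ M - Y < K
    · exact Or.inr (mem_filter.2 ⟨hYG, hYE⟩)
    · push Not at hYE
      left
      refine ⟨?_, hY⟩
      rw [← hXY] at hYE hY0 ⊢
      have h3 := dblRefl hV hno h1 h2 hK hXc hX0 hXM hX1 hX2 hYE.1 hYE.2 hY0
      exact mem_filter.2 ⟨by rw [hXY]; exact hYG, h3⟩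
  have hS2 : S.card ≤ (T0 \ F).card := by
    refine Finset.card_le_card_of_injOn (fun x => 2 * x) ?_ ?_
    · intro x hx
      obtain ⟨h3, h4, h5, h6, h7⟩ := hS x (Finset.mem_coe.1 hx)
      have h8 : 2 * x ∈ G := by
        rw [hmem]
        exact ⟨h3, Nat.Coprime.mul_left (Nat.coprime_two_left.2 hodd) h4⟩
      rw [Finset.mem_coe, mem_sdiff]
      refine ⟨mem_filter.2 ⟨h8, h7, h6⟩, ?_⟩
      intro h9
      obtain ⟨X, hX, hXY⟩ := mem_image.1 h9
      obtain ⟨hXG, -, hX2⟩ := mem_filter.1 hX
      have h10 : X = x := by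
        refine inj_dbl hodd ((hmem X).1 hXG).1 (by omega) ?_
        simp only at hXY
        rw [hXY, Nat.mod_eq_of_lt h3]
      rw [h10] at hX2
      exact hX2 h5
    · intro x _ y _ hxy
      simp only at hxy
      omega
  have h3 : F.card ≤ (T0 ∩ F).card + E.card :=
    (Finset.card_le_card hFsub).trans (Finset.card_union_le _ _)
  have h4 : (T0 \ F).card + (T0 ∩ F).card = T0.card := by
    rw [add_comm]
    exact Finset.card_inter_add_card_sdiff T0 F
  omega

end Pool.Agent.LR3
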