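import Mathlib
import Pool.Agent.LR2.Defs
import Pool.Agent.LR2.Cls
import Pool.Agent.LR2.Good

/-!
Lonely runner with speeds at most `2 n`: existence of a modulus `M` slightly above `2 n + 2` in the
class of `1` modulo `D` all of whose prime factors are large on average.
-/

namespace Pool.Agent.LR3

open Finset Pool.Agent.LR2

/-- Logarithms are small compared with linear functions. -/
theorem BIG (A B c : ℝ) (hc : 0 < c) : ∃ n0 : ℕ, ∀ n : ℕ, n0 ≤ n →
    A * (Real.log (2 * ((2 * n : ℕ) : ℝ) + 1)) + B ≤ c * n := by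
  have h1 : Filter.Tendsto (fun n : ℕ => (2 * ((2 * n : ℕ) : ℝ) + 1)) Filter.atTop Filter.atTop := by
    have h2 : Filter.Tendsto (fun n : ℕ => (4 * (n : ℝ) + 1)) Filter.atTop Filter.atTop :=
      Filter.tendsto_atTop_add_const_right _ _
        ((tendsto_natCast_atTop_atTop (R := ℝ)).const_mul_atTop (by norm_num : (0 : ℝ) < 4))
    refine h2.congr fun n => ?_
    push_cast; ring
  have h3 := (Real.isLittleO_log_id_atTop.comp_tendsto h1).def
    (c := c / (10 * (|A| + 1))) (by positivity)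
  obtain ⟨n1, hn1⟩ := Filter.eventually_atTop.1 h3
  obtain ⟨n2, hn2⟩ := exists_nat_ge ((|B| + 1) * 2 / c)
  refine ⟨n1 + n2 + 1, fun n hn => ?_⟩
  have h4 := hn1 n (by omega)
  have hn' : (1 : ℝ) ≤ n := by exact_mod_cast (show 1 ≤ n by omega)
  simp only [Function.comp_apply, id_eq, Real.norm_eq_abs] at h4
  have h5 : |2 * ((2 * n : ℕ) : ℝ) + 1| ≤ 5 * n := by
    rw [abs_of_nonneg (by positivity)]
    push_cast
    linarith
  have h6 : A * (Real.log (2 * ((2 * n : ℕ) : ℝ) + 1)) ≤ c / 2 * n := by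
    calc A * (Real.log (2 * ((2 * n : ℕ) : ℝ) + 1))
        ≤ |A| * |Real.log (2 * ((2 * n : ℕ) : ℝ) + 1)| := by
          rw [← abs_mul]; exact le_abs_self _
      _ ≤ (|A| + 1) * (c / (10 * (|A| + 1)) * (5 * n)) := by
          gcongr
          · linarith
          · exact h4.trans (by gcongr)
      _ = c / 2 * n := by
          field_simp
          ring
  have h7 : B ≤ c / 2 * n := by
    have h8 : ((|B| + 1) * 2 / c) ≤ n := hn2.trans (by exact_mod_cast (show n2 ≤ n by omega))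
    rw [div_le_iff₀ hc] at h8
    have := le_abs_self B
    linarith
  linarith

/-- The number `v` is prime to all primes at most `q`. -/
theorem rsum_eq {q v D : ℕ} (h : v ≡ 1 [MOD D]) (hq : ∀ p : ℕ, p.Prime → p ≤ q → p ∣ D) :
    rsum 0 v = rsum q v := by
  unfold rsum
  congr 1
  apply Finset.filter_congr
  intro p hp
  have hpp := Nat.prime_of_mem_primeFactors hp
  have hpv := Nat.dvd_of_mem_primeFactors hp
  refine ⟨fun _ => ?_, fun _ => hpp.pos⟩
  by_contra hc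
  have hpD := hq p hpp (by omega)
  have h1 : v ≡ 1 [MOD p] := h.of_dvd hpD
  have h2 : p ∣ 1 := (Nat.ModEq.dvd_iff h1 dvd_rfl).1 hpv
  exact hpp.one_lt.ne' (Nat.dvd_one.1 h2)

/-- A multiple of `D` divisible exactly by primes at most `q`. -/
theorem exM (D q : ℕ) (hD : 0 < D) (hq : D ≤ q) :
    0 < D * q.factorial ∧ (∀ p : ℕ, p.Prime → p ∣ D * q.factorial → p ≤ q) ∧
      (∀ p : ℕ, p.Prime → p ≤ q → p ∣ D * q.factorial) := by
  refine ⟨Nat.mul_pos hD (Nat.factorial_pos q), fun p hp hd => ?_, fun p hp hpq => ?_⟩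
  · rcases (Nat.Prime.dvd_mul hp).1 hd with h | h
    · exact (Nat.le_of_dvd hD h).trans hq
    · exact (Nat.Prime.dvd_factorial hp).1 h
  · exact dvd_mul_of_dvd_right ((Nat.Prime.dvd_factorial hp).2 hpq) D

/-- Existence of the modulus. -/
theorem RM {ε : ℝ} (hε : 0 < ε) (hε1 : ε ≤ 1) (D : ℕ) (hD : 0 < D) :
    ∃ n0 : ℕ, ∀ n : ℕ, n0 ≤ n → ∃ M : ℕ, 2 * n + 2 < M ∧ (M : ℝ) ≤ (2 + ε) * n ∧
      M ≡ 1 [MOD D] ∧ rsum 0 M ≤ ε := by
  classical
  obtain ⟨q0, hq0⟩ := exists_nat_ge (16 / ε ^ 2)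
  set q := q0 + D with hqdef
  obtain ⟨hP0, hP1, hP2⟩ := exM D q hD (by omega)
  set P := D * q.factorial with hPdef
  have hPr : (0 : ℝ) < P := by exact_mod_cast hP0
  have hq16 : 16 / ε ^ 2 ≤ q := hq0.trans (by exact_mod_cast (show q0 ≤ q by omega))
  have hqpos : 0 < q := by omega
  have hqr : (0 : ℝ) < q := by exact_mod_cast hqpos
  obtain ⟨n1, hn1⟩ := BIG (1 / ε) (1 / ε + 1 / P + 2) (ε / (4 * P)) (by positivity)
  obtain ⟨n2, hn2⟩ := exists_nat_ge (8 / ε)
  refine ⟨n1 + n2 + 10, fun n hn => ?_⟩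
  have hnr : (0 : ℝ) < n := by exact_mod_cast (show 0 < n by omega)
  have hb := hn1 n (by omega)
  have hn8 : 8 / ε ≤ n := hn2.trans (by exact_mod_cast (show n2 ≤ n by omega))
  have hn8' : 8 ≤ ε * n := by
    rw [div_le_iff₀ hε] at hn8; linarith
  set K := ⌊ε * n / 2⌋₊ with hK
  have hK1 : (K : ℝ) ≤ ε * n / 2 := Nat.floor_le (by positivity)
  have hK2 : ε * n / 2 - 1 < K := by
    have := Nat.lt_floor_add_one (ε * n / 2)
    linarith
  have hKn : K ≤ n := by
    have : (K : ℝ) ≤ n := by nlinarith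
    exact_mod_cast this
  set w := 2 * n + 3 + K with hw
  have hcount := CLS_lower 0 K P (Nat.zero_le _) hP0 ((w : ℤ) - 1)
  have hgood := GOOD P q (2 * n) w ((w : ℤ) - 1) hP0 hqpos hP1 (by omega) hε
  set S := (Ioc 0 K).filter (fun p : ℕ => (p : ℤ) ≡ (w : ℤ) - 1 [ZMOD P]) with hS
  set B := (Icc 1 (2 * n)).filter (fun r : ℕ => (r : ℤ) ≡ (w : ℤ) - 1 [ZMOD P] ∧ r < w ∧
    ε < rsum q (w - r)) with hB
  have hlt : (B.card : ℝ) < S.card := by
    refine lt_of_le_of_lt hgood (lt_of_lt_of_le ?_ hcount)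
    have h1 : ((2 * n : ℕ) : ℝ) / (P * q) ≤ ε ^ 2 * n / (8 * P) := by
      push_cast
      rw [div_le_div_iff₀ (by positivity) (by positivity)]
      have h2 : 16 ≤ ε ^ 2 * q := by
        rw [div_le_iff₀ (by positivity)] at hq16
        linarith
      nlinarith [mul_pos hnr hPr]
    have h3 : (1 / ε) * (((2 * n : ℕ) : ℝ) / (P * q)) ≤ ε * n / (8 * P) := by
      calc (1 / ε) * (((2 * n : ℕ) : ℝ) / (P * q)) ≤ (1 / ε) * (ε ^ 2 * n / (8 * P)) := by gcongr
        _ = ε * n / (8 * P) := by field_simp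
    have h4 : ε * n / (2 * P) - 1 / P ≤ ((K : ℝ) - (0 : ℕ)) / P := by
      rw [Nat.cast_zero, sub_zero]
      have : (ε * n / 2 - 1) / P ≤ (K : ℝ) / P := by gcongr
      refine le_trans (le_of_eq ?_) this
      field_simp
    have h5 : ε * n / (2 * P) = ε / (4 * P) * n + ε * n / (4 * P) := by
      field_simp; ring
    have h6 : ε * n / (8 * P) ≤ ε * n / (4 * P) := by
      gcongr
      norm_num
    have h7 : (1 / ε) * (((2 * n : ℕ) : ℝ) / (P * q) + Real.log (2 * ((2 * n : ℕ) : ℝ) + 1) + 1) =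
        (1 / ε) * (((2 * n : ℕ) : ℝ) / (P * q)) + 1 / ε * Real.log (2 * ((2 * n : ℕ) : ℝ) + 1)
          + 1 / ε := by ring
    rw [h7]
    linarith
  have hlt' : B.card < S.card := by exact_mod_cast hlt
  obtain ⟨r, hrS, hrB⟩ : ∃ r ∈ S, r ∉ B := by
    by_contra hcon
    push Not at hcon
    exact absurd (card_le_card hcon) (by omega)
  obtain ⟨hr1, hr2⟩ := mem_filter.1 hrS
  rw [mem_Ioc] at hr1
  have hmod : (w - r) ≡ 1 [MOD P] := by
    rw [← Int.natCast_modEq_iff, Nat.cast_sub (by omega)]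
    have := hr2.symm.sub_left (w : ℤ)
    simpa using this.symm
  refine ⟨w - r, by omega, ?_, ?_, ?_⟩
  · have h1 : ((w - r : ℕ) : ℝ) ≤ 2 * n + 2 + K := by
      have : w - r ≤ 2 * n + 2 + K := by omega
      exact_mod_cast this
    linarith
  · exact hmod.of_dvd ⟨_, rfl⟩
  · rw [rsum_eq hmod hP2]
    by_contra hc
    push Not at hc
    exact hrB (mem_filter.2 ⟨mem_Icc.2 ⟨by omega, by omega⟩, hr2, by omega, hc⟩)

end Pool.Agent.LR3
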