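import Mathlib
import Pool.Agent.LR2.Defs
import Pool.Agent.LR2.Cls
import Pool.Agent.LR2.Good
import Pool.Agent.LR2.Near
import Pool.Agent.LR3.RM

/-!
Lonely runner with speeds at most `2 n`: many small `x` such that `M - x`, `M - 2 x` and `M - 4 x`
have no small prime factors.
-/

namespace Pool.Agent.LR3

open Finset Pool.Agent.LR2

/-- The `x` such that `M - j x` has many small prime factors. -/
lemma RX_bad {δ : ℝ} (hδ : 0 < δ) {D q n M j : ℕ} (hD : 0 < D) (hq : 0 < q) (hj : 0 < j)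
    (hDq : ∀ p : ℕ, p.Prime → p ∣ D → p ≤ q) (hqD : ∀ p : ℕ, p.Prime → p ≤ q → p ∣ D)
    (hM : M ≤ 4 * n + 1) (hM1 : M ≡ 1 [MOD D]) (X : Finset ℕ)
    (hX : ∀ x ∈ X, 0 < x ∧ j * x ≤ 2 * n ∧ j * x < M ∧ (x : ℤ) ≡ 0 [ZMOD D]) :
    ((X.filter (fun x => ¬ rsum 0 (M - j * x) ≤ δ)).card : ℝ) ≤
      (1 / δ) * (((2 * n : ℕ) : ℝ) / (D * q) + Real.log (2 * ((2 * n : ℕ) : ℝ) + 1) + 1) := by
  classical
  have hgood := GOOD D q (2 * n) M 0 hD hq hDq (by omega) hδ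
  refine le_trans ?_ hgood
  have hinj : Set.InjOn (fun x => j * x)
      ((X.filter (fun x => ¬ rsum 0 (M - j * x) ≤ δ)) : Finset ℕ) := by
    intro x _ y _ h
    exact Nat.eq_of_mul_eq_mul_left hj h
  rw [← Finset.card_image_of_injOn hinj]
  have hsub : (X.filter (fun x => ¬ rsum 0 (M - j * x) ≤ δ)).image (fun x => j * x) ⊆
      (Icc 1 (2 * n)).filter (fun r : ℕ => (r : ℤ) ≡ 0 [ZMOD D] ∧ r < M ∧ δ < rsum q (M - r)) := by
    intro r hr
    obtain ⟨x, hx, rfl⟩ := mem_image.1 hr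
    obtain ⟨hxX, hxb⟩ := mem_filter.1 hx
    obtain ⟨h1, h2, h3, h4⟩ := hX x hxX
    have h5 : ((j * x : ℕ) : ℤ) ≡ 0 [ZMOD D] := by
      have := h4.mul_left (j : ℤ)
      simpa using this
    have h6 : (M - j * x) ≡ 1 [MOD D] := by
      rw [← Int.natCast_modEq_iff, Nat.cast_sub h3.le]
      have h7 : (M : ℤ) ≡ 1 [ZMOD D] := by exact_mod_cast Int.natCast_modEq_iff.2 hM1
      have h8 := h7.sub h5
      simpa using h8
    rw [rsum_eq h6 hqD] at hxb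
    refine mem_filter.2 ⟨mem_Icc.2 ⟨Nat.mul_pos hj h1, h2⟩, h5, h3, ?_⟩
    push Not at hxb
    exact hxb
  exact_mod_cast card_le_card hsub

/-- Many `x` such that `M - x`, `M - 2 x` and `M - 4 x` have no small prime factors. -/
theorem RX {δ : ℝ} (hδ : 0 < δ) (hδ1 : δ ≤ 1) :
    ∃ D : ℕ, 0 < D ∧ Even D ∧ ∃ ε : ℝ, 0 < ε ∧ ε ≤ 1 / 100 ∧ ∃ n0 : ℕ, ∀ n : ℕ, n0 ≤ n → ∀ M : ℕ,
      2 * n + 2 < M → (M : ℝ) ≤ (2 + ε) * n → M ≡ 1 [MOD D] → rsum 0 M ≤ ε →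
      ∃ X : Finset ℕ, 30 * ε * n + 10 < X.card ∧ ∀ x ∈ X, 0 < x ∧ Nat.Coprime x M ∧
        M ≤ 2 * n + x ∧ 8 * (x : ℝ) ≤ δ * n ∧ rsum 0 (M - x) ≤ δ ∧ rsum 0 (M - 2 * x) ≤ δ ∧
        rsum 0 (M - 4 * x) ≤ δ := by
  classical
  obtain ⟨q0, hq0⟩ := exists_nat_ge (200 / δ ^ 2)
  set q := q0 + 2 with hqdef
  obtain ⟨hD0, hD1, hD2⟩ := exM 2 q (by norm_num) (by omega)
  set D := 2 * q.factorial with hDdef
  have hDr : (0 : ℝ) < D := by exact_mod_cast hD0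
  have hDr1 : (1 : ℝ) ≤ D := by exact_mod_cast hD0
  have hqpos : 0 < q := by omega
  have hqr : (0 : ℝ) < q := by exact_mod_cast hqpos
  have hq200 : 200 / δ ^ 2 ≤ q := hq0.trans (by exact_mod_cast (show q0 ≤ q by omega))
  obtain ⟨ε, hεdef⟩ : ∃ ε : ℝ, ε = δ / (2000 * D) := ⟨_, rfl⟩
  have hε : 0 < ε := by rw [hεdef]; positivity
  have hεD : ε * (2000 * D) = δ := by
    rw [hεdef]
    field_simp
  have hε1 : ε ≤ 1 / 100 := by nlinarith
  obtain ⟨n1, hn1⟩ := BIG (3 / δ) (3 / δ + 20) (5 * ε) (by positivity)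
  obtain ⟨n2, hn2⟩ := exists_nat_ge (100 / δ)
  refine ⟨D, hD0, ⟨q.factorial, by omega⟩, ε, hε, hε1, n1 + n2 + 10, ?_⟩
  intro n hn M hM1 hM2 hM3 hM4
  have hnr : (0 : ℝ) < n := by exact_mod_cast (show 0 < n by omega)
  have hb := hn1 n (by omega)
  have hn8 : 100 / δ ≤ n := hn2.trans (by exact_mod_cast (show n2 ≤ n by omega))
  have hn8' : 100 ≤ δ * n := by
    rw [div_le_iff₀ hδ] at hn8; linarith
  have hδn : δ * n = 2000 * D * (ε * n) := by
    rw [← hεD]; ring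
  have hDn : ε * n ≤ D * (ε * n) := by
    have : 0 ≤ ε * n := by positivity
    nlinarith
  set a := ⌈δ * n / 16⌉₊ with ha
  set b := ⌊δ * n / 8⌋₊ with hbdef
  have ha1 : δ * n / 16 ≤ a := Nat.le_ceil _
  have ha2 : (a : ℝ) < δ * n / 16 + 1 := Nat.ceil_lt_add_one (by positivity)
  have hb1 : (b : ℝ) ≤ δ * n / 8 := Nat.floor_le (by positivity)
  have hb2 : δ * n / 8 < b + 1 := Nat.lt_floor_add_one _
  have hab : a ≤ b := by
    have : (a : ℝ) ≤ b := by linarith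
    exact_mod_cast this
  have hcount := CLS_lower a b D hab hD0 0
  set X := (Ioc a b).filter (fun p : ℕ => (p : ℤ) ≡ 0 [ZMOD D]) with hX
  have hMr : (M : ℝ) ≤ 3 * n := by nlinarith
  have hM3n : M ≤ 3 * n := by exact_mod_cast hMr
  have hXmem : ∀ x ∈ X, 0 < x ∧ 8 * (x : ℝ) ≤ δ * n ∧ 8 * x ≤ n ∧ M ≤ 2 * n + x ∧
      (x : ℤ) ≡ 0 [ZMOD D] := by
    intro x hx
    obtain ⟨h1, h2⟩ := mem_filter.1 hx
    rw [mem_Ioc] at h1
    have h3 : (x : ℝ) ≤ b := by exact_mod_cast h1.2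
    have h4 : (a : ℝ) ≤ x := by exact_mod_cast h1.1.le
    have h5 : 8 * (x : ℝ) ≤ δ * n := by linarith
    refine ⟨by omega, h5, ?_, ?_, h2⟩
    · have : (8 : ℝ) * x ≤ n := by nlinarith
      exact_mod_cast this
    · have h6 : (M : ℝ) ≤ 2 * n + x := by linarith
      exact_mod_cast h6
  have hbad : ∀ j : ℕ, 0 < j → j ≤ 4 →
      ((X.filter (fun x => ¬ rsum 0 (M - j * x) ≤ δ)).card : ℝ) ≤
      (1 / δ) * (((2 * n : ℕ) : ℝ) / (D * q) + Real.log (2 * ((2 * n : ℕ) : ℝ) + 1) + 1) := by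
    intro j hj hj4
    refine RX_bad hδ hD0 hqpos hj hD1 hD2 (by omega) hM3 X ?_
    intro x hx
    obtain ⟨h1, h2, h3, h4, h5⟩ := hXmem x hx
    have h6 : j * x ≤ 4 * x := Nat.mul_le_mul_right x hj4
    exact ⟨h1, by omega, by omega, h5⟩
  have hcop : ((X.filter (fun x => ¬ Nat.Coprime x M)).card : ℝ) ≤ ε * (3 * n) := by
    have h1 := NEAR_noncop (w := M) (by omega)
    have h2 : X.filter (fun x => ¬ Nat.Coprime x M) ⊆
        (Icc 1 (M - 1)).filter (fun x : ℕ => ¬ Nat.Coprime x M) := by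
      intro x hx
      obtain ⟨h3, h4⟩ := mem_filter.1 hx
      obtain ⟨h5, -, h7, -⟩ := hXmem x h3
      exact mem_filter.2 ⟨mem_Icc.2 ⟨h5, by omega⟩, h4⟩
    calc ((X.filter (fun x => ¬ Nat.Coprime x M)).card : ℝ)
        ≤ (((Icc 1 (M - 1)).filter (fun x : ℕ => ¬ Nat.Coprime x M)).card : ℝ) := by
          exact_mod_cast card_le_card h2
      _ ≤ rsum 0 M * M := h1
      _ ≤ ε * (3 * n) := by gcongr
  set N1 := X.filter (fun x => ¬ rsum 0 (M - 1 * x) ≤ δ) with hN1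
  set N2 := X.filter (fun x => ¬ rsum 0 (M - 2 * x) ≤ δ) with hN2
  set N4 := X.filter (fun x => ¬ rsum 0 (M - 4 * x) ≤ δ) with hN4
  set N0 := X.filter (fun x => ¬ Nat.Coprime x M) with hN0
  refine ⟨X \ (N0 ∪ (N1 ∪ (N2 ∪ N4))), ?_, ?_⟩
  · have h1 := hbad 1 (by norm_num) (by norm_num)
    have h2 := hbad 2 (by norm_num) (by norm_num)
    have h4 := hbad 4 (by norm_num) (by norm_num)
    rw [← hN1] at h1
    rw [← hN2] at h2
    rw [← hN4] at h4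
    have h5 : X.card ≤ (X \ (N0 ∪ (N1 ∪ (N2 ∪ N4)))).card + (N0.card + (N1.card + (N2.card + N4.card))) := by
      have e1 := Finset.card_le_card_sdiff_add_card (s := X) (t := N0 ∪ (N1 ∪ (N2 ∪ N4)))
      have e2 := Finset.card_union_le N0 (N1 ∪ (N2 ∪ N4))
      have e3 := Finset.card_union_le N1 (N2 ∪ N4)
      have e4 := Finset.card_union_le N2 N4
      omega
    have h6 : (X.card : ℝ) ≤ (X \ (N0 ∪ (N1 ∪ (N2 ∪ N4)))).card +
        (N0.card + (N1.card + (N2.card + N4.card))) := by exact_mod_cast h5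
    have h7 : ((2 * n : ℕ) : ℝ) / (D * q) ≤ δ ^ 2 * n / (100 * D) := by
      push_cast
      rw [div_le_div_iff₀ (by positivity) (by positivity)]
      have h8 : 200 ≤ δ ^ 2 * q := by
        rw [div_le_iff₀ (by positivity)] at hq200
        linarith
      nlinarith [mul_pos hnr hDr]
    have h8 : (1 / δ) * (((2 * n : ℕ) : ℝ) / (D * q)) ≤ 20 * (ε * n) := by
      calc (1 / δ) * (((2 * n : ℕ) : ℝ) / (D * q)) ≤ (1 / δ) * (δ ^ 2 * n / (100 * D)) := by gcongr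
        _ = δ * n / (100 * D) := by field_simp
        _ = 20 * (ε * n) := by
          rw [hδn]; field_simp; ring
    have h9 : (1 / δ) * (((2 * n : ℕ) : ℝ) / (D * q) + Real.log (2 * ((2 * n : ℕ) : ℝ) + 1) + 1) =
        (1 / δ) * (((2 * n : ℕ) : ℝ) / (D * q)) + 1 / δ * Real.log (2 * ((2 * n : ℕ) : ℝ) + 1)
          + 1 / δ := by ring
    rw [h9] at h1 h2 h4
    have h10 : 125 * (ε * n) - 3 ≤ ((b : ℝ) - a) / D - 1 := by
      have h11 : (125 * (ε * n) * D - 2) ≤ (b : ℝ) - a := by linarith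
      have h12 : (125 * (ε * n) * D - 2) / D ≤ ((b : ℝ) - a) / D := by gcongr
      have h13 : (125 * (ε * n) * D - 2) / D = 125 * (ε * n) - 2 / D := by
        field_simp
      have h14 : 2 / (D : ℝ) ≤ 2 := by
        rw [div_le_iff₀ hDr]; linarith
      linarith
    have h15 : 3 / δ * Real.log (2 * ((2 * n : ℕ) : ℝ) + 1) =
        3 * (1 / δ * Real.log (2 * ((2 * n : ℕ) : ℝ) + 1)) := by ring
    have h16 : 3 / δ = 3 * (1 / δ) := by ring
    rw [h15, h16] at hb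
    have h17 : 0 < ε * n := by positivity
    linarith
  · intro x hx
    rw [mem_sdiff] at hx
    obtain ⟨hxX, hxN⟩ := hx
    obtain ⟨h1, h2, h3, h4, h5⟩ := hXmem x hxX
    simp only [mem_union, not_or] at hxN
    obtain ⟨g0, g1, g2, g4⟩ := hxN
    refine ⟨h1, ?_, h4, h2, ?_, ?_, ?_⟩
    · by_contra hc
      exact g0 (mem_filter.2 ⟨hxX, hc⟩)
    · by_contra hc
      exact g1 (mem_filter.2 ⟨hxX, by rwa [one_mul]⟩)
    · by_contra hc
      exact g2 (mem_filter.2 ⟨hxX, hc⟩)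
    · by_contra hc
      exact g4 (mem_filter.2 ⟨hxX, hc⟩)

end Pool.Agent.LR3
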