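import Mathlib
import Pool.Agent.LR2.Main
import Pool.Agent.LR2.Cons
import Pool.Agent.LR3.Near
import Pool.Agent.LR3.RM
import Pool.Agent.LR3.RX

/-!
Lonely runner with speeds at most `2 n`: the theorem for all large `n`.
-/

namespace Pool.Agent.LR3

open Finset Pool.Agent.LR2

/-- There is no large counterexample. -/
theorem FIN : ∃ n0 : ℕ, ∀ n : ℕ, n0 ≤ n → ∀ V : Finset ℕ, (∀ x ∈ V, 1 ≤ x ∧ x ≤ 2 * n) →
    V.card = n →
    ¬ (∀ t : ℝ, ∃ x ∈ V, ∃ k : ℤ, |t * (x : ℝ) - (k : ℝ)| < (1 : ℝ) / ((n : ℝ) + 1)) := by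
  classical
  obtain ⟨δ0, hδ0, n1, HM⟩ := MAIN
  obtain ⟨δ, hδ, hδδ0, hδ1⟩ : ∃ δ : ℝ, 0 < δ ∧ δ ≤ δ0 ∧ δ ≤ 1 :=
    ⟨min δ0 1, by positivity, min_le_left _ _, min_le_right _ _⟩
  obtain ⟨D, hD, hDe, ε, hε, hε1, n2, HX⟩ := RX hδ hδ1
  obtain ⟨n3, HR⟩ := RM hε (by linarith) D hD
  obtain ⟨n4, hn4⟩ := exists_nat_ge (100 / ε)
  refine ⟨n1 + n2 + n3 + n4 + 10, ?_⟩
  intro n hn V hV hcard hno
  have hnr : (0 : ℝ) < n := by exact_mod_cast (show 0 < n by omega)
  have hsys := CONS n V (by omega) hV hcard hno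
  obtain ⟨M, hM1, hM2, hM3, hM4⟩ := HR n (by omega)
  obtain ⟨X, hXcard, hX⟩ := HX n (by omega) M hM1 hM2 hM3 hM4
  have hMr : (M : ℝ) ≤ 3 * n := by nlinarith
  have hM3n : M ≤ 3 * n := by exact_mod_cast hMr
  have hodd : Odd M := by
    have h1 : M ≡ 1 [MOD 2] := hM3.of_dvd hDe.two_dvd
    exact Nat.odd_iff.2 h1
  have hmem : ∀ x, x ∈ (Icc 1 (2 * n)) \ V ↔ (1 ≤ x ∧ x ≤ 2 * n) ∧ x ∉ V := by
    intro x; simp
  -- rough numbers close to `2 n` are speeds
  have hin : ∀ w : ℕ, (2 - δ) * n ≤ w → w ≤ 2 * n → rsum 0 w ≤ δ → w ∈ V := by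
    intro w h1 h2 h3
    by_contra hc
    have hw0 : 0 < w := by
      have h4 : (1 : ℝ) * n ≤ (2 - δ) * n := by
        gcongr
        linarith
      have : (0 : ℝ) < w := by linarith
      exact_mod_cast this
    refine HM n (by omega) w _ ⟨hsys, Or.inr ((hmem w).2 ⟨⟨hw0, h2⟩, hc⟩), ?_, h3.trans hδδ0⟩
    refine le_trans ?_ h1
    gcongr
  -- the size of `K`
  obtain ⟨K, hKdef⟩ : ∃ K : ℕ, K = ⌈6 * ε * n⌉₊ := ⟨_, rfl⟩
  have hK1 : 6 * ε * n ≤ K := by rw [hKdef]; exact Nat.le_ceil _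
  have hK2 : (K : ℝ) < 6 * ε * n + 1 := by rw [hKdef]; exact Nat.ceil_lt_add_one (by positivity)
  have hKK : M * (M - 2 * (n + 1)) ≤ K * (3 * (n + 1) - M) := by
    have h1 : ((M - 2 * (n + 1) : ℕ) : ℝ) ≤ ε * n := by
      rw [Nat.cast_sub (by omega)]
      push_cast
      linarith
    have h2 : (n : ℝ) / 2 ≤ ((3 * (n + 1) - M : ℕ) : ℝ) := by
      rw [Nat.cast_sub (by omega)]
      push_cast
      nlinarith
    have h3 : (M : ℝ) * ((M - 2 * (n + 1) : ℕ) : ℝ) ≤ (3 * n) * (ε * n) := by gcongr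
    have h4 : (6 * ε * n) * ((n : ℝ) / 2) ≤ (K : ℝ) * ((3 * (n + 1) - M : ℕ) : ℝ) := by gcongr
    have h5 : (M : ℝ) * ((M - 2 * (n + 1) : ℕ) : ℝ) ≤ (K : ℝ) * ((3 * (n + 1) - M : ℕ) : ℝ) := by
      refine h3.trans (le_trans (le_of_eq ?_) h4)
      ring
    exact_mod_cast h5
  -- the totient
  have htot : (2 * n : ℝ) + 2 - 3 * ε * n ≤ M.totient := by
    have h1 := NEAR_noncop (w := M) (by omega)
    have h2 : M - 1 ≤ M.totient + ((Icc 1 (M - 1)).filter (fun x : ℕ => ¬ Nat.Coprime x M)).card := by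
      have h3 : ((Icc 1 (M - 1)).filter (fun x : ℕ => Nat.Coprime x M)).card +
          ((Icc 1 (M - 1)).filter (fun x : ℕ => ¬ Nat.Coprime x M)).card = M - 1 := by
        rw [Finset.card_filter_add_card_filter_not]
        simp
      have h4 : ((Icc 1 (M - 1)).filter (fun x : ℕ => Nat.Coprime x M)).card ≤ M.totient := by
        rw [Nat.totient]
        apply card_le_card
        intro x hx
        obtain ⟨h5, h6⟩ := mem_filter.1 hx
        rw [mem_Icc] at h5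
        exact mem_filter.2 ⟨mem_range.2 (by omega), h6.symm⟩
      omega
    have h7 : ((M - 1 : ℕ) : ℝ) ≤
        M.totient + ((Icc 1 (M - 1)).filter (fun x : ℕ => ¬ Nat.Coprime x M)).card := by
      exact_mod_cast h2
    have h8 : (2 * n + 2 : ℝ) ≤ ((M - 1 : ℕ) : ℝ) := by
      have : 2 * n + 2 ≤ M - 1 := by omega
      exact_mod_cast this
    have h9 : rsum 0 M * M ≤ ε * (3 * n) := by gcongr
    linarith
  have hX' : ∀ x ∈ X, 0 < x ∧ Nat.Coprime x M ∧ 8 * x ≤ n ∧ M - x ∈ V ∧ M - 2 * x ∈ V ∧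
      M - 4 * x ∈ V := by
    intro x hx
    obtain ⟨h1, h2, h3, h4, h5, h6, h7⟩ := hX x hx
    have h8 : 8 * x ≤ n := by
      have : (8 : ℝ) * x ≤ n := by nlinarith
      exact_mod_cast this
    have hgen : ∀ j : ℕ, 1 ≤ j → j ≤ 4 → rsum 0 (M - j * x) ≤ δ → M - j * x ∈ V := by
      intro j hj1 hj4 hj
      have h9 : j * x ≤ 4 * x := Nat.mul_le_mul_right x hj4
      have h10 : x ≤ j * x := Nat.le_mul_of_pos_left x (by omega)
      refine hin _ ?_ (by omega) hj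
      have h11 : ((M - j * x : ℕ) : ℝ) = M - j * x := by
        rw [Nat.cast_sub (by omega)]
        push_cast; ring
      have h12 : (2 * n : ℝ) + 2 < M := by exact_mod_cast hM1
      have h13 : (j : ℝ) * x ≤ 4 * x := by exact_mod_cast h9
      rw [h11]
      nlinarith
    refine ⟨h1, h2, h8, ?_, hgen 2 (by norm_num) (by norm_num) h6,
      hgen 4 (by norm_num) (by norm_num) h7⟩
    have := hgen 1 (by norm_num) (by norm_num) (by rwa [one_mul])
    rwa [one_mul] at this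
  -- the two exceptional sets
  have hS1 := near hV hcard hno hM1 (by omega) hKK hodd (X.filter (fun x => 2 * x ∈ V)) (by
    intro x hx
    obtain ⟨h1, h2⟩ := mem_filter.1 hx
    obtain ⟨g1, g2, g3, g4, g5, g6⟩ := hX' x h1
    exact ⟨by omega, g2, g4, g5, h2⟩)
  have hS2 := near hV hcard hno hM1 (by omega) hKK hodd
    ((X.filter (fun x => 4 * x ∈ V)).image (fun x => 2 * x)) (by
    intro y hy
    obtain ⟨x, hx, rfl⟩ := mem_image.1 hy
    obtain ⟨h1, h2⟩ := mem_filter.1 hx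
    obtain ⟨g1, g2, g3, g4, g5, g6⟩ := hX' x h1
    have e : 2 * (2 * x) = 4 * x := by ring
    refine ⟨by omega, ?_, g5, by rwa [e], by rwa [e]⟩
    exact Nat.Coprime.mul_left (Nat.coprime_two_left.2 hodd) g2)
  rw [Finset.card_image_of_injective _ (fun x y (h : 2 * x = 2 * y) => by omega)] at hS2
  have hlt : (X.filter (fun x => 2 * x ∈ V)).card + (X.filter (fun x => 4 * x ∈ V)).card < X.card := by
    have h1 : ((X.filter (fun x => 2 * x ∈ V)).card : ℝ) + M.totient ≤ 2 * n + 2 * K := by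
      exact_mod_cast hS1
    have h2 : ((X.filter (fun x => 4 * x ∈ V)).card : ℝ) + M.totient ≤ 2 * n + 2 * K := by
      exact_mod_cast hS2
    have h3 : ((X.filter (fun x => 2 * x ∈ V)).card : ℝ) + (X.filter (fun x => 4 * x ∈ V)).card <
        X.card := by linarith
    exact_mod_cast h3
  obtain ⟨x, hxX, hx2, hx4⟩ : ∃ x ∈ X, 2 * x ∉ V ∧ 4 * x ∉ V := by
    by_contra hcon
    push Not at hcon
    have h1 : X ⊆ (X.filter (fun x => 2 * x ∈ V)) ∪ (X.filter (fun x => 4 * x ∈ V)) := by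
      intro x hx
      rw [mem_union, mem_filter, mem_filter]
      by_cases h : 2 * x ∈ V
      · exact Or.inl ⟨hx, h⟩
      · exact Or.inr ⟨hx, hcon x hx h⟩
    have h2 := (card_le_card h1).trans (card_union_le _ _)
    omega
  obtain ⟨g1, g2, g3, g4, g5, g6⟩ := hX' x hxX
  -- the doubling constraint
  obtain ⟨z, hz⟩ : ∃ z : ℕ, z = 2 * x * (2 * n / (2 * x) + 1) + 1 := ⟨_, rfl⟩
  have hz1 : 2 * n + 1 ≤ z := by
    have := Nat.lt_mul_div_succ (2 * n) (show 0 < 2 * x by omega)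
    omega
  have hz2 : z ≤ 2 * n + 2 * x + 1 := by
    have h1 := Nat.mul_div_le (2 * n) (2 * x)
    have h2 : 2 * x * (2 * n / (2 * x) + 1) = 2 * x * (2 * n / (2 * x)) + 2 * x := by ring
    omega
  have hzc : Nat.Coprime z (2 * x) := by
    rw [hz]
    exact (Nat.coprime_mul_left_add_left 1 (2 * x) _).2 (Nat.coprime_one_left _)
  refine hsys.dbl (2 * x) z (by omega) hzc hz1 (by omega) ?_ ?_
  · exact (hmem _).2 ⟨⟨by omega, by omega⟩, hx2⟩
  · have e : 2 * (2 * x) = 4 * x := by ring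
    rw [e]
    exact (hmem _).2 ⟨⟨by omega, by omega⟩, hx4⟩

end Pool.Agent.LR3
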